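import Pool.Agent.Helper18.RD.Stmts

/-! Project RD, row END: upper bound for the number of square pairs. -/

set_option autoImplicit false

namespace Pool.Agent.Helper64.RD

open Finset Pool.Agent.Helper18.RD

/-- product of the four differences of a cycle -/
def DD (t : ℕ × ℕ × ℕ × ℕ) : ℤ :=
  ((t.1 : ℤ) - t.2.2.1) * ((t.1 : ℤ) - t.2.2.2) * ((t.2.1 : ℤ) - t.2.2.1) *
    ((t.2.1 : ℤ) - t.2.2.2)

theorem mem_T4 {S : Finset ℕ} {t : ℕ × ℕ × ℕ × ℕ} (h : t ∈ T4 S) :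
    t.1 ∈ S ∧ t.2.1 ∈ S ∧ t.2.2.1 ∈ S ∧ t.2.2.2 ∈ S ∧ t.1 ≠ t.2.2.1 ∧ t.1 ≠ t.2.2.2 ∧
      t.2.1 ≠ t.2.2.1 ∧ t.2.1 ≠ t.2.2.2 := by
  unfold T4 at h
  simp only [mem_filter, mem_product] at h
  obtain ⟨⟨h1, h2, h3, h4⟩, h5, h6, h7, h8⟩ := h
  exact ⟨h1, h2, h3, h4, h5, h6, h7, h8⟩

theorem cyc_mul {S : Finset ℕ} {c d : ℕ → ℕ → ℤ} {k : ℤ}
    (hcd : ∀ n ∈ S, ∀ n' ∈ S, n ≠ n' → c n n' * d n n' = k * ((n : ℤ) - n'))
    {t : ℕ × ℕ × ℕ × ℕ} (h : t ∈ T4 S) : cyc c t * cyc d t = k ^ 4 * DD t := by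
  obtain ⟨h1, h2, h3, h4, h5, h6, h7, h8⟩ := mem_T4 h
  have e1 := hcd _ h1 _ h3 h5
  have e2 := hcd _ h1 _ h4 h6
  have e3 := hcd _ h2 _ h3 h7
  have e4 := hcd _ h2 _ h4 h8
  unfold cyc DD
  calc c t.1 t.2.2.1 * c t.1 t.2.2.2 * c t.2.1 t.2.2.1 * c t.2.1 t.2.2.2 *
        (d t.1 t.2.2.1 * d t.1 t.2.2.2 * d t.2.1 t.2.2.1 * d t.2.1 t.2.2.2)
      = (c t.1 t.2.2.1 * d t.1 t.2.2.1) * (c t.1 t.2.2.2 * d t.1 t.2.2.2) *
        (c t.2.1 t.2.2.1 * d t.2.1 t.2.2.1) * (c t.2.1 t.2.2.2 * d t.2.1 t.2.2.2) := by ring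
    _ = _ := by rw [e1, e2, e3, e4]; ring

theorem DD_ne {S : Finset ℕ} {t : ℕ × ℕ × ℕ × ℕ} (h : t ∈ T4 S) : DD t ≠ 0 := by
  obtain ⟨h1, h2, h3, h4, h5, h6, h7, h8⟩ := mem_T4 h
  unfold DD
  have g1 : (t.1 : ℤ) - t.2.2.1 ≠ 0 := sub_ne_zero.2 (by exact_mod_cast h5)
  have g2 : (t.1 : ℤ) - t.2.2.2 ≠ 0 := sub_ne_zero.2 (by exact_mod_cast h6)
  have g3 : (t.2.1 : ℤ) - t.2.2.1 ≠ 0 := sub_ne_zero.2 (by exact_mod_cast h7)
  have g4 : (t.2.1 : ℤ) - t.2.2.2 ≠ 0 := sub_ne_zero.2 (by exact_mod_cast h8)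
  exact mul_ne_zero (mul_ne_zero (mul_ne_zero g1 g2) g3) g4

theorem abs_diff {N a b : ℕ} (ha : a < N) (hb : b < N) : |(a : ℤ) - b| ≤ N := by
  rw [abs_le]
  constructor <;> omega

theorem DD_le {N : ℕ} {S : Finset ℕ} (hS : S ⊆ range N) {t : ℕ × ℕ × ℕ × ℕ} (h : t ∈ T4 S) :
    |DD t| ≤ (N : ℤ) ^ 4 := by
  obtain ⟨h1, h2, h3, h4, _⟩ := mem_T4 h
  have m1 := mem_range.1 (hS h1)
  have m2 := mem_range.1 (hS h2)
  have m3 := mem_range.1 (hS h3)
  have m4 := mem_range.1 (hS h4)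
  unfold DD
  rw [abs_mul, abs_mul, abs_mul]
  calc |(t.1 : ℤ) - t.2.2.1| * |(t.1 : ℤ) - t.2.2.2| * |(t.2.1 : ℤ) - t.2.2.1| *
        |(t.2.1 : ℤ) - t.2.2.2| ≤ (N : ℤ) * N * N * N := by
        gcongr
        · exact abs_diff m1 m3
        · exact abs_diff m1 m4
        · exact abs_diff m2 m3
        · exact abs_diff m2 m4
    _ = (N : ℤ) ^ 4 := by ring

theorem st_END (hDV : ST_DV) : ST_END := by
  intro ε hε
  obtain ⟨C1, hC1, h1⟩ := hDV ε hε
  refine ⟨C1 + 1, by linarith, ?_⟩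
  intro N S c d k hN hS hk hcd
  classical
  have hNr : (1 : ℝ) ≤ N := by exact_mod_cast hN
  have hF1 : (1 : ℝ) ≤ (N : ℝ) ^ (1 / 2 + ε) := Real.one_le_rpow hNr (by linarith)
  set F : ℝ := (N : ℝ) ^ (1 / 2 + ε) with hF
  have hk0 : k ≠ 0 := by rcases hk with rfl | rfl <;> norm_num
  have hk8 : |k ^ 8| ≤ 256 := by rcases hk with rfl | rfl <;> norm_num
  -- the target of the two maps
  let T : Finset (ℕ × ℕ × ℕ × (ℕ × ℕ × ℕ × ℕ)) := S ×ˢ S ×ˢ S ×ˢ (S ×ˢ S ×ˢ S ×ˢ S)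
  have hT : T.card = S.card ^ 7 := by
    simp only [T, card_product]
    ring
  have hMM : ∀ x ∈ MM S c d, x.1 ∈ T4 S ∧ x.2 ∈ T4 S ∧
      IsSquare (k ^ 8 * (DD x.1 * DD x.2)) := by
    intro x hx
    unfold MM at hx
    simp only [mem_filter, mem_product] at hx
    obtain ⟨⟨a1, a2⟩, a3, a4⟩ := hx
    refine ⟨a1, a2, ?_⟩
    have e : k ^ 8 * (DD x.1 * DD x.2) =
        (cyc c x.1 * cyc c x.2) * (cyc d x.1 * cyc d x.2) := by
      have b1 := cyc_mul hcd a1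
      have b2 := cyc_mul hcd a2
      calc k ^ 8 * (DD x.1 * DD x.2) = (k ^ 4 * DD x.1) * (k ^ 4 * DD x.2) := by ring
        _ = (cyc c x.1 * cyc d x.1) * (cyc c x.2 * cyc d x.2) := by rw [b1, b2]
        _ = _ := by ring
    rw [e]
    exact a3.mul a4
  set A := (MM S c d).filter (fun x => x.1.2.2.1 ≠ x.1.2.2.2) with hAd
  set B := (MM S c d).filter (fun x => x.1.2.2.1 = x.1.2.2.2) with hBd
  have hAB : (MM S c d).card ≤ A.card + B.card := by
    rw [hAd, hBd]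
    calc (MM S c d).card ≤ (A ∪ B).card := by
          apply card_le_card
          intro x hx
          rw [mem_union, hAd, hBd, mem_filter, mem_filter]
          by_cases h : x.1.2.2.1 = x.1.2.2.2
          · exact Or.inr ⟨hx, h⟩
          · exact Or.inl ⟨hx, h⟩
      _ ≤ _ := card_union_le _ _
  have hB : B.card ≤ T.card := by
    apply card_le_card_of_injOn (fun x => (x.1.1, x.1.2.1, x.1.2.2.1, x.2))
    · intro x hx
      have hx' := (mem_filter.1 hx).1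
      obtain ⟨a1, a2, _⟩ := hMM x hx'
      obtain ⟨h1, h2, h3, h4, _⟩ := mem_T4 a1
      obtain ⟨g1, g2, g3, g4, _⟩ := mem_T4 a2
      simp only [T, coe_product, Set.mem_prod, mem_coe]
      exact ⟨h1, h2, h3, g1, g2, g3, g4⟩
    · rintro ⟨⟨x1, x2, x3, x4⟩, x'⟩ hx ⟨⟨y1, y2, y3, y4⟩, y'⟩ hy hxy
      have hx' := (mem_filter.1 hx).2
      have hy' := (mem_filter.1 hy).2
      simp only [Prod.mk.injEq] at hxy hx' hy' ⊢
      obtain ⟨e1, e2, e3, e4⟩ := hxy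
      refine ⟨⟨e1, e2, e3, ?_⟩, e4⟩
      rw [← hx', ← hy', e3]
  have hA : (A.card : ℝ) ≤ (C1 * F) * T.card := by
    have hmap : ∀ x ∈ A, (x.1.2.1, x.1.2.2.1, x.1.2.2.2, x.2) ∈ T := by
      intro x hx
      have hx' := (mem_filter.1 hx).1
      obtain ⟨a1, a2, _⟩ := hMM x hx'
      obtain ⟨h1, h2, h3, h4, _⟩ := mem_T4 a1
      obtain ⟨g1, g2, g3, g4, _⟩ := mem_T4 a2
      simp only [T, mem_product]
      exact ⟨h2, h3, h4, g1, g2, g3, g4⟩
    have hcard := card_le_mul_card_image_of_maps_to hmap ⌊C1 * F⌋₊ ?_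
    · have hfl : ((⌊C1 * F⌋₊ : ℕ) : ℝ) ≤ C1 * F := Nat.floor_le (by positivity)
      calc (A.card : ℝ) ≤ ((⌊C1 * F⌋₊ * T.card : ℕ) : ℝ) := by exact_mod_cast hcard
        _ = (⌊C1 * F⌋₊ : ℝ) * T.card := by push_cast; ring
        _ ≤ _ := by gcongr
    · rintro ⟨n2, n', n'', t'⟩ -
      apply Nat.le_floor
      rcases (A.filter (fun x => (x.1.2.1, x.1.2.2.1, x.1.2.2.2, x.2) = (n2, n', n'', t'))).eq_empty_or_nonempty
        with he | ⟨z, hz⟩
      · rw [he]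
        simp only [card_empty, Nat.cast_zero]
        positivity
      · rw [mem_filter] at hz
        obtain ⟨hzA, hzf⟩ := hz
        have hzM := (mem_filter.1 hzA).1
        have hzn := (mem_filter.1 hzA).2
        obtain ⟨a1, a2, _⟩ := hMM z hzM
        simp only [Prod.mk.injEq] at hzf
        obtain ⟨f1, f2, f3, f4⟩ := hzf
        obtain ⟨g1, g2, g3, g4, g5, g6, g7, g8⟩ := mem_T4 a1
        rw [f2, f3] at hzn
        rw [f4] at a2
        rw [f1] at g2 g7 g8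
        rw [f2] at g3 g7
        rw [f3] at g4 g8
        have m' := mem_range.1 (hS g3)
        have m'' := mem_range.1 (hS g4)
        have m2 := mem_range.1 (hS g2)
        have q1 : (n2 : ℤ) - n' ≠ 0 := sub_ne_zero.2 (by exact_mod_cast g7)
        have q2 : (n2 : ℤ) - n'' ≠ 0 := sub_ne_zero.2 (by exact_mod_cast g8)
        have hB0 : k ^ 8 * (((n2 : ℤ) - n') * ((n2 : ℤ) - n'') * DD t') ≠ 0 :=
          mul_ne_zero (pow_ne_zero _ hk0) (mul_ne_zero (mul_ne_zero q1 q2) (DD_ne a2))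
        have hBb : |(((k ^ 8 * (((n2 : ℤ) - n') * ((n2 : ℤ) - n'') * DD t') : ℤ)) : ℝ)| ≤
            256 * (N : ℝ) ^ 20 := by
          have hi : |k ^ 8 * (((n2 : ℤ) - n') * ((n2 : ℤ) - n'') * DD t')| ≤
              256 * (N : ℤ) ^ 20 := by
            rw [abs_mul, abs_mul, abs_mul]
            have hN' : (1 : ℤ) ≤ N := by exact_mod_cast hN
            calc |k ^ 8| * (|(n2 : ℤ) - n'| * |(n2 : ℤ) - n''| * |DD t'|)
                ≤ 256 * ((N : ℤ) * N * (N : ℤ) ^ 4) := by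
                  gcongr
                  · exact abs_diff m2 m'
                  · exact abs_diff m2 m''
                  · exact DD_le hS a2
              _ = 256 * (N : ℤ) ^ 6 := by ring
              _ ≤ 256 * (N : ℤ) ^ 20 := by
                  gcongr 256 * ?_
                  exact pow_le_pow_right₀ hN' (by norm_num)
          rw [← Int.cast_abs]
          exact_mod_cast hi
        have hb := h1 N n' n'' _ hN m' m'' hzn hB0 hBb
        refine le_trans ?_ hb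
        refine Nat.cast_le.2 ?_
        apply card_le_card_of_injOn (fun x => x.1.1)
        · rintro ⟨⟨x1, x2, x3, x4⟩, x'⟩ hx
          simp only [coe_filter, Set.mem_ofPred_eq, Prod.mk.injEq] at hx
          obtain ⟨hxA, hx2, hx3, hx4, hx5⟩ := hx
          subst hx2 hx3 hx4 hx5
          have hxM := (mem_filter.1 hxA).1
          obtain ⟨b1, b2, b3⟩ := hMM _ hxM
          obtain ⟨k1, k2, k3, k4, k5, k6, k7, k8⟩ := mem_T4 b1
          simp only [coe_filter, Set.mem_ofPred_eq, mem_range]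
          refine ⟨mem_range.1 (hS k1), k5, k6, ?_⟩
          have e : k ^ 8 * (((x2 : ℤ) - x3) * ((x2 : ℤ) - x4) * DD x') * ((x1 : ℤ) - x3) *
              ((x1 : ℤ) - x4) = k ^ 8 * (DD (x1, x2, x3, x4) * DD x') := by
            unfold DD
            simp only
            ring
          rw [e]
          exact b3
        · rintro ⟨⟨x1, x2, x3, x4⟩, x'⟩ hx ⟨⟨y1, y2, y3, y4⟩, y'⟩ hy hxy
          simp only [coe_filter, Set.mem_ofPred_eq, Prod.mk.injEq] at hx hy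
          obtain ⟨_, hx2, hx3, hx4, hx5⟩ := hx
          obtain ⟨_, hy2, hy3, hy4, hy5⟩ := hy
          simp only at hxy
          simp only [Prod.mk.injEq]
          exact ⟨⟨hxy, hx2.trans hy2.symm, hx3.trans hy3.symm, hx4.trans hy4.symm⟩,
            hx5.trans hy5.symm⟩
  have hBr : (B.card : ℝ) ≤ T.card := by exact_mod_cast hB
  have hTr : (T.card : ℝ) = (S.card : ℝ) ^ 7 := by rw [hT]; push_cast; ring
  have hABr : ((MM S c d).card : ℝ) ≤ A.card + B.card := by exact_mod_cast hAB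
  rw [hTr] at hA hBr
  have hS0 : (0 : ℝ) ≤ (S.card : ℝ) ^ 7 := by positivity
  calc ((MM S c d).card : ℝ) ≤ A.card + B.card := hABr
    _ ≤ C1 * F * (S.card : ℝ) ^ 7 + (S.card : ℝ) ^ 7 := by linarith
    _ ≤ C1 * F * (S.card : ℝ) ^ 7 + F * (S.card : ℝ) ^ 7 := by nlinarith
    _ = (C1 + 1) * (S.card : ℝ) ^ 7 * F := by ring

end Pool.Agent.Helper64.RD
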