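import Pool.Agent.Helper18.RD.Stmts2
import Pool.Agent.Helper64.RD.END

/-! Project RD, row ENA: from pairs of cycles to triples. -/

set_option autoImplicit false

namespace Pool.Agent.Helper64.RD

open Finset Pool.Agent.Helper18.RD

theorem st_ENA : ST_ENA := by
  intro N S c d k X hN hS hk hcd hX
  classical
  have hk0 : k ≠ 0 := by rcases hk with rfl | rfl <;> norm_num
  have hk8 : |k ^ 8| ≤ 256 := by rcases hk with rfl | rfl <;> norm_num
  have hNr : (1 : ℝ) ≤ N := by exact_mod_cast hN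
  have hX0 : 0 ≤ X := by
    have h := hX 0 1 (by omega) one_ne_zero (by
      have : (1 : ℝ) ≤ (N : ℝ) ^ 4 := one_le_pow₀ hNr
      norm_num
      linarith)
    exact le_trans (Nat.cast_nonneg _) h
  let T : Finset (ℕ × (ℕ × ℕ × ℕ × ℕ)) := S ×ˢ (S ×ˢ S ×ˢ S ×ˢ S)
  have hT : T.card = S.card ^ 5 := by
    simp only [T, card_product]
    ring
  have hMM : ∀ x ∈ MM S c d, x.1 ∈ T4 S ∧ x.2 ∈ T4 S ∧
      IsSquare (k ^ 8 * (DD x.1 * DD x.2)) := by
    intro x hx
    unfold MM at hx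
    simp only [mem_filter, mem_product] at hx
    obtain ⟨⟨a1, a2⟩, a3, a4⟩ := hx
    refine ⟨a1, a2, ?_⟩
    have e : k ^ 8 * (DD x.1 * DD x.2) =
        (cyc c x.1 * cyc c x.2) * (cyc d x.1 * cyc d x.2) := by
      have b1 := cyc_mul hcd a1
      have b2 := cyc_mul hcd a2
      calc k ^ 8 * (DD x.1 * DD x.2) = (k ^ 4 * DD x.1) * (k ^ 4 * DD x.2) := by ring
        _ = (cyc c x.1 * cyc d x.1) * (cyc c x.2 * cyc d x.2) := by rw [b1, b2]
        _ = _ := by ring
    rw [e]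
    exact a3.mul a4
  have hmap : ∀ x ∈ MM S c d, (x.1.2.1, x.2) ∈ T := by
    intro x hx
    obtain ⟨a1, a2, _⟩ := hMM x hx
    obtain ⟨h1, h2, h3, h4, _⟩ := mem_T4 a1
    obtain ⟨g1, g2, g3, g4, _⟩ := mem_T4 a2
    simp only [T, mem_product]
    exact ⟨h2, g1, g2, g3, g4⟩
  have hcard := card_le_mul_card_image_of_maps_to hmap ⌊X⌋₊ ?_
  · have hfl : ((⌊X⌋₊ : ℕ) : ℝ) ≤ X := Nat.floor_le hX0
    calc ((MM S c d).card : ℝ) ≤ ((⌊X⌋₊ * T.card : ℕ) : ℝ) := by exact_mod_cast hcard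
      _ = (⌊X⌋₊ : ℝ) * T.card := by push_cast; ring
      _ ≤ X * T.card := by gcongr
      _ = _ := by rw [hT]; push_cast; ring
  · rintro ⟨z, t'⟩ -
    apply Nat.le_floor
    rcases ((MM S c d).filter (fun x => (x.1.2.1, x.2) = (z, t'))).eq_empty_or_nonempty
      with he | ⟨x0, hx0⟩
    · rw [he]
      simpa using hX0
    · obtain ⟨m0, e0⟩ := mem_filter.1 hx0
      obtain ⟨a1, a2, _⟩ := hMM x0 m0
      simp only [Prod.mk.injEq] at e0
      obtain ⟨e1, e2⟩ := e0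
      have hz : z < N := by
        rw [← e1]
        exact mem_range.1 (hS (mem_T4 a1).2.1)
      have ht' : t' ∈ T4 S := by rw [← e2]; exact a2
      have hB0 : k ^ 8 * DD t' ≠ 0 := mul_ne_zero (pow_ne_zero _ hk0) (DD_ne ht')
      have hB : |((k ^ 8 * DD t' : ℤ) : ℝ)| ≤ 256 * (N : ℝ) ^ 4 := by
        have h : |k ^ 8 * DD t'| ≤ 256 * (N : ℤ) ^ 4 := by
          rw [abs_mul]
          exact mul_le_mul hk8 (DD_le hS ht') (abs_nonneg _) (by norm_num)
        rw [← Int.cast_abs]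
        exact_mod_cast h
      refine le_trans ?_ (hX z (k ^ 8 * DD t') hz hB0 hB)
      have : ((MM S c d).filter (fun x => (x.1.2.1, x.2) = (z, t'))).card ≤
          (E3 S z (k ^ 8 * DD t')).card := by
        apply card_le_card_of_injOn (fun x => (x.1.1, x.1.2.2.1, x.1.2.2.2))
        · intro x hx
          obtain ⟨m1, f0⟩ := mem_filter.1 hx
          simp only [Prod.mk.injEq] at f0
          obtain ⟨f1, f2⟩ := f0
          obtain ⟨b1, b2, b3⟩ := hMM x m1
          obtain ⟨h1, h2, h3, h4, h5, h6, h7, h8⟩ := mem_T4 b1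
          unfold E3
          simp only [coe_filter, mem_product, Set.mem_ofPred_eq]
          refine ⟨⟨h1, h3, h4⟩, h5, h6, ?_, ?_, ?_⟩
          · rw [← f1]; exact h7
          · rw [← f1]; exact h8
          · have e : k ^ 8 * DD t' * ((z : ℤ) - x.1.2.2.1) * ((z : ℤ) - x.1.2.2.2) *
                ((x.1.1 : ℤ) - x.1.2.2.1) * ((x.1.1 : ℤ) - x.1.2.2.2) =
                k ^ 8 * (DD x.1 * DD x.2) := by
              rw [← f1, ← f2]
              show _ = k ^ 8 * ((((x.1.1 : ℤ) - x.1.2.2.1) * ((x.1.1 : ℤ) - x.1.2.2.2) *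
                ((x.1.2.1 : ℤ) - x.1.2.2.1) * ((x.1.2.1 : ℤ) - x.1.2.2.2)) * DD x.2)
              ring
            rw [e]
            exact b3
        · rintro ⟨⟨x1, x2, x3, x4⟩, x'⟩ hx ⟨⟨y1, y2, y3, y4⟩, y'⟩ hy hxy
          have hx' := (mem_filter.1 hx).2
          have hy' := (mem_filter.1 hy).2
          simp only [Prod.mk.injEq] at hxy hx' hy' ⊢
          obtain ⟨g1, g2, g3⟩ := hxy
          exact ⟨⟨g1, hx'.1.trans hy'.1.symm, g2, g3⟩, hx'.2.trans hy'.2.symm⟩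
      exact_mod_cast this

end Pool.Agent.Helper64.RD
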